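import Mathlib
import Pool.Agent.U426.TU.Stm

/-!
# Project TU, package GR: Gram matrices of the icosian order

`Q = Aᵀ D A`, where `A` is the matrix of the evaluations of the basis of the order at the four real
places (and four quaternion coordinates), and `D` the diagonal matrix with the entries
`2 δ_σ / c_σ`.
-/

set_option autoImplicit false

namespace Pool.Agent.U373.TU.GR

open Pool.Agent.U426.TU Matrix
open scoped Kronecker

theorem exK (x : K) : ∃ a b c d : ℚ, x = mkK a b c d := ⟨_, _, _, _, (mkK_eta x).symm⟩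

theorem ev_mk (s t : ℝ) (a b c d : ℚ) :
    ev s t (mkK a b c d) = (a : ℝ) + b * s + ((c : ℝ) + d * s) * t := rfl

theorem ev_add (s t : ℝ) (x y : K) : ev s t (x + y) = ev s t x + ev s t y := by
  obtain ⟨a, b, c, d, rfl⟩ := exK x
  obtain ⟨a', b', c', d', rfl⟩ := exK y
  rw [mkK_add, ev_mk, ev_mk, ev_mk]
  push_cast
  ring

theorem ev_mul {s t : ℝ} (hs : s ^ 2 = 2) (ht : t ^ 2 = t + 1) (x y : K) :
    ev s t (x * y) = ev s t x * ev s t y := by
  obtain ⟨a, b, c, d, rfl⟩ := exK x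
  obtain ⟨a', b', c', d', rfl⟩ := exK y
  rw [mkK_mul, ev_mk, ev_mk, ev_mk]
  push_cast
  linear_combination (-((b : ℝ) * b' + d * d' * (1 + t) + (b * d' + d * b') * t)) * hs -
    (((c : ℝ) + d * s) * (c' + d' * s)) * ht

theorem ev_one (s t : ℝ) : ev s t 1 = 1 := by
  rw [← mkK_one, ev_mk]
  push_cast
  ring

theorem ev_zero (s t : ℝ) : ev s t 0 = 0 := by
  rw [← mkK_zero, ev_mk]
  push_cast
  ring

theorem ev_div {s t : ℝ} (hs : s ^ 2 = 2) (ht : t ^ 2 = t + 1) (x y : K) (hy : ev s t y ≠ 0) :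
    ev s t (x / y) = ev s t x / ev s t y := by
  have hy0 : y ≠ 0 := by
    rintro rfl
    exact hy (ev_zero s t)
  rw [eq_div_iff hy, ← ev_mul hs ht, div_mul_cancel₀ _ hy0]

/-- the two values of `√2`, the two values of `φ` -/
noncomputable def s0 : ℝ := Real.sqrt 2

noncomputable def t0 : ℝ := (1 + Real.sqrt 5) / 2

theorem s0_sq : s0 ^ 2 = 2 := Real.sq_sqrt (by norm_num)

theorem t0_sq : t0 ^ 2 = t0 + 1 := by
  have h : Real.sqrt 5 ^ 2 = 5 := Real.sq_sqrt (by norm_num)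
  unfold t0
  linear_combination h / 4

noncomputable def sv : Fin 4 → ℝ := ![s0, -s0, s0, -s0]

noncomputable def tv : Fin 4 → ℝ := ![t0, t0, 1 - t0, 1 - t0]

theorem sv_sq (i : Fin 4) : sv i ^ 2 = 2 := by
  fin_cases i <;> simp [sv, s0_sq]

theorem tv_sq (i : Fin 4) : tv i ^ 2 = tv i + 1 := by
  have h := t0_sq
  fin_cases i <;> simp [tv] <;> linear_combination h

/-- `δ` at the four places -/
noncomputable def de (i : Fin 4) : ℝ := (2 + sv i) * (2 + tv i) / 20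

theorem de_pos (i : Fin 4) : 0 < de i := by
  have h1 := sv_sq i
  have h2 := tv_sq i
  have h3 : 0 < 2 + sv i := by nlinarith
  have h4 : 0 < 2 + tv i := by nlinarith
  unfold de
  positivity

theorem lam_eq (x : K) : ((lam x : ℚ) : ℝ) = ∑ i, de i * ev (sv i) (tv i) x := by
  obtain ⟨a, b, c, d, rfl⟩ := exK x
  have h := t0_sq
  have h2 := s0_sq
  simp only [lam, c0_mk, c1_mk, c2_mk, c3_mk, Fin.sum_univ_four, de, ev_mk]
  push_cast
  simp only [sv, tv, Matrix.cons_val_zero, Matrix.cons_val_one, Matrix.cons_val]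
  have e1 : ∀ u v : ℝ, (2 + s0) * (u + v * s0) + (2 + -s0) * (u + v * -s0) = 4 * (u + v) := by
    intro u v
    linear_combination 2 * v * h2
  have e2 : ∀ x y : ℝ, (2 + t0) * (x + y * t0) + (2 + (1 - t0)) * (x + y * (1 - t0)) =
      5 * (x + y) := by
    intro x y
    linear_combination 2 * y * h
  have e3 : ∀ t : ℝ, (2 + s0) * (2 + t) / 20 * (↑a + ↑b * s0 + (↑c + ↑d * s0) * t) +
      (2 + -s0) * (2 + t) / 20 * (↑a + ↑b * -s0 + (↑c + ↑d * -s0) * t) =
      (2 + t) * (((a : ℝ) + b) + (c + d) * t) / 5 := by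
    intro t
    have := e1 ((a : ℝ) + c * t) (b + d * t)
    linear_combination (2 + t) / 20 * this
  have e4 := e2 ((a : ℝ) + b) (c + d)
  linear_combination -e3 t0 - e3 (1 - t0) - e4 / 5

theorem prod_de : ∏ i, (2 * de i) = 1 / 100 := by
  have h := t0_sq
  have h2 := s0_sq
  simp only [Fin.prod_univ_four, de]
  simp only [sv, tv, Matrix.cons_val_zero, Matrix.cons_val_one, Matrix.cons_val]
  have e1 : (2 + s0) * (2 + -s0) = 2 := by linear_combination -h2
  have e2 : (2 + t0) * (2 + (1 - t0)) = 5 := by linear_combination -h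
  calc _ = ((2 + s0) * (2 + -s0)) ^ 2 * ((2 + t0) * (2 + (1 - t0))) ^ 2 / 10000 := by ring
    _ = 1 / 100 := by rw [e1, e2]; norm_num

theorem prod_ev (x : K) : ∏ i, ev (sv i) (tv i) x = ((nm x : ℚ) : ℝ) := by
  obtain ⟨a, b, c, d, rfl⟩ := exK x
  have h := t0_sq
  have h2 := s0_sq
  simp only [Fin.prod_univ_four, ev_mk, nm, c0_mk, c1_mk, c2_mk, c3_mk]
  push_cast
  simp only [sv, tv, Matrix.cons_val_zero, Matrix.cons_val_one, Matrix.cons_val]
  have e1 : ∀ u v : ℝ, (u + v * t0) * (u + v * (1 - t0)) = u ^ 2 + u * v - v ^ 2 := by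
    intro u v
    linear_combination -v ^ 2 * h
  have e2 : ((a : ℝ) + b * s0) ^ 2 + (a + b * s0) * (c + d * s0) - (c + d * s0) ^ 2 =
      ((a : ℝ) ^ 2 + 2 * b ^ 2 + a * c + 2 * b * d - c ^ 2 - 2 * d ^ 2) +
        (2 * a * b + a * d + b * c - 2 * c * d) * s0 := by
    linear_combination ((b : ℝ) ^ 2 + b * d - d ^ 2) * h2
  have e3 : ((a : ℝ) + b * -s0) ^ 2 + (a + b * -s0) * (c + d * -s0) - (c + d * -s0) ^ 2 =
      ((a : ℝ) ^ 2 + 2 * b ^ 2 + a * c + 2 * b * d - c ^ 2 - 2 * d ^ 2) -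
        (2 * a * b + a * d + b * c - 2 * c * d) * s0 := by
    linear_combination ((b : ℝ) ^ 2 + b * d - d ^ 2) * h2
  calc _ = (((a : ℝ) + b * s0 + (c + d * s0) * t0) * ((a : ℝ) + b * s0 + (c + d * s0) * (1 - t0))) *
        (((a : ℝ) + b * -s0 + (c + d * -s0) * t0) * ((a : ℝ) + b * -s0 + (c + d * -s0) * (1 - t0))) := by
          ring
    _ = _ := by
      rw [e1, e1, e2, e3]
      linear_combination (-(2 * (a : ℝ) * b + a * d + b * c - 2 * c * d) ^ 2) * h2

/-- evaluations of the basis of `K` -/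
noncomputable def E : Matrix (Fin 4) (Fin 4) ℝ :=
  Matrix.of fun i k => ![1, sv i, tv i, sv i * tv i] k

/-- coordinates of the basis of the order at a place -/
noncomputable def P (t : ℝ) : Matrix (Fin 4) (Fin 4) ℝ :=
  !![1, 0, 1 / 2, 0; 0, 1, 1 / 2, 1 / 2; 0, 0, 1 / 2, (t - 1) / 2; 0, 0, 1 / 2, t / 2]

theorem det_P (t : ℝ) : (P t).det = 1 / 4 := by
  simp [P, Matrix.det_succ_row_zero, Fin.sum_univ_succ, Fin.succAbove]
  ring

theorem det_E : E.det ^ 8 = 40 ^ 8 := by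
  have h := t0_sq
  have h2 := s0_sq
  have h1 : E.det = 4 * s0 ^ 2 * (1 - 2 * t0) ^ 2 := by
    simp [E, sv, tv, Matrix.det_succ_row_zero, Fin.sum_univ_succ, Fin.succAbove]
    ring
  have h3 : (1 - 2 * t0) ^ 2 = 5 := by linear_combination 4 * h
  rw [h1, h2, h3]
  norm_num

noncomputable def A : Matrix (Fin 4 × Fin 4) (Fin 4 × Fin 4) ℝ :=
  Matrix.blockDiagonal (fun i => P (tv i)) * ((1 : Matrix (Fin 4) (Fin 4) ℝ) ⊗ₖ E)

theorem det_A : A.det ^ 2 = 10 ^ 8 := by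
  have h : A.det = (1 / 4) ^ 4 * E.det ^ 4 := by
    rw [A, Matrix.det_mul, Matrix.det_blockDiagonal, Matrix.det_kronecker]
    simp [det_P]
  rw [h]
  have := det_E
  calc _ = (1 / 4 : ℝ) ^ 8 * E.det ^ 8 := by ring
    _ = _ := by rw [this]; norm_num

theorem vec_eq (w : Fin 4 × Fin 4 → ℤ) : Pool.Agent.U426.TU.vec w =
    ⟨mkK (w (0, 0)) (w (0, 1)) (w (0, 2)) (w (0, 3)) +
        mkK (w (2, 0)) (w (2, 1)) (w (2, 2)) (w (2, 3)) * (1 / 2),
      mkK (w (1, 0)) (w (1, 1)) (w (1, 2)) (w (1, 3)) +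
        mkK (w (2, 0)) (w (2, 1)) (w (2, 2)) (w (2, 3)) * (1 / 2) +
        mkK (w (3, 0)) (w (3, 1)) (w (3, 2)) (w (3, 3)) * (1 / 2),
      mkK (w (2, 0)) (w (2, 1)) (w (2, 2)) (w (2, 3)) * (1 / 2) +
        mkK (w (3, 0)) (w (3, 1)) (w (3, 2)) (w (3, 3)) * ((ph - 1) / 2),
      mkK (w (2, 0)) (w (2, 1)) (w (2, 2)) (w (2, 3)) * (1 / 2) +
        mkK (w (3, 0)) (w (3, 1)) (w (3, 2)) (w (3, 3)) * (ph / 2)⟩ := by
  unfold Pool.Agent.U426.TU.vec
  rw [Fin.sum_univ_four]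
  generalize mkK (w (0, 0)) (w (0, 1)) (w (0, 2)) (w (0, 3)) = X0
  generalize mkK (w (1, 0)) (w (1, 1)) (w (1, 2)) (w (1, 3)) = X1
  generalize mkK (w (2, 0)) (w (2, 1)) (w (2, 2)) (w (2, 3)) = X2
  generalize mkK (w (3, 0)) (w (3, 1)) (w (3, 2)) (w (3, 3)) = X3
  simp only [e, Matrix.cons_val]
  apply Quaternion.ext
  · change X0 * 1 + X1 * 0 + X2 * (1 / 2) + X3 * 0 = X0 + X2 * (1 / 2)
    ring
  · change X0 * 0 + X1 * 1 + X2 * (1 / 2) + X3 * (1 / 2) = X1 + X2 * (1 / 2) + X3 * (1 / 2)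
    ring
  · change X0 * 0 + X1 * 0 + X2 * (1 / 2) + X3 * ((ph - 1) / 2) =
      X2 * (1 / 2) + X3 * ((ph - 1) / 2)
    ring
  · change X0 * 0 + X1 * 0 + X2 * (1 / 2) + X3 * (ph / 2) = X2 * (1 / 2) + X3 * (ph / 2)
    ring

theorem A_mulVec (w : Fin 4 × Fin 4 → ℤ) (q i : Fin 4) :
    (A *ᵥ (fun j => (w j : ℝ))) (q, i) =
      ev (sv i) (tv i) (![(Pool.Agent.U426.TU.vec w).re, (Pool.Agent.U426.TU.vec w).imI,
        (Pool.Agent.U426.TU.vec w).imJ, (Pool.Agent.U426.TU.vec w).imK] q) := by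
  have hE : ∀ m, ((((1 : Matrix (Fin 4) (Fin 4) ℝ) ⊗ₖ E) *ᵥ (fun j => (w j : ℝ))) (m, i)) =
      ev (sv i) (tv i) (mkK (w (m, 0)) (w (m, 1)) (w (m, 2)) (w (m, 3))) := by
    intro m
    rw [ev_mk]
    simp only [mulVec, dotProduct, Fintype.sum_prod_type, Matrix.kroneckerMap_apply,
      Matrix.one_apply, ite_mul, one_mul, zero_mul]
    rw [Finset.sum_eq_single m]
    · simp only [if_true, Fin.sum_univ_four, E, Matrix.of_apply, Matrix.cons_val_zero,
        Matrix.cons_val_one, Matrix.cons_val]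
      push_cast
      ring
    · intro b _ hb
      simp [hb.symm]
    · simp
  have hB : (A *ᵥ (fun j => (w j : ℝ))) (q, i) =
      ∑ m, P (tv i) q m * ev (sv i) (tv i) (mkK (w (m, 0)) (w (m, 1)) (w (m, 2)) (w (m, 3))) := by
    rw [A, ← Matrix.mulVec_mulVec]
    simp only [← hE]
    generalize ((1 : Matrix (Fin 4) (Fin 4) ℝ) ⊗ₖ E) *ᵥ (fun j => (w j : ℝ)) = u
    simp only [mulVec, dotProduct, Fintype.sum_prod_type, Matrix.blockDiagonal_apply, ite_mul,
      zero_mul]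
    simp
  rw [hB]
  have hh : ∀ x : K, ev (sv i) (tv i) (x * (1 / 2)) = ev (sv i) (tv i) x * (1 / 2) := by
    intro x
    rw [ev_mul (sv_sq i) (tv_sq i)]
    congr 1
    rw [show (1 / 2 : K) = ((1 / 2 : ℚ) : K) by norm_num, mkK_rat, ev_mk]
    norm_num
  have hph : ev (sv i) (tv i) ph = tv i := by
    rw [ph, ev_mk]
    norm_num
  have hp2 : ev (sv i) (tv i) (ph / 2) = tv i / 2 := by
    rw [show ph / 2 = ph * (1 / 2) by ring, hh, hph]
    ring
  have hp3 : ev (sv i) (tv i) ((ph - 1) / 2) = (tv i - 1) / 2 := by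
    rw [show (ph - 1) / 2 = ph * (1 / 2) + (-1) * (1 / 2) by ring, ev_add, hh, hh, hph,
      ← mkK_one, mkK_neg, ev_mk]
    norm_num
    ring
  have hp4 : ev (sv i) (tv i) (1 / 2) = 1 / 2 := by
    have := hh 1
    rwa [one_mul, ev_one, one_mul] at this
  have hm := ev_mul (sv_sq i) (tv_sq i)
  rw [Fin.sum_univ_four, vec_eq w]
  generalize mkK (w (0, 0)) (w (0, 1)) (w (0, 2)) (w (0, 3)) = X0
  generalize mkK (w (1, 0)) (w (1, 1)) (w (1, 2)) (w (1, 3)) = X1
  generalize mkK (w (2, 0)) (w (2, 1)) (w (2, 2)) (w (2, 3)) = X2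
  generalize mkK (w (3, 0)) (w (3, 1)) (w (3, 2)) (w (3, 3)) = X3
  fin_cases q
  · change _ = ev (sv i) (tv i) (X0 + X2 * (1 / 2))
    simp only [ev_add, hm, hp4, P, Matrix.of_apply]
    simp
    ring
  · change _ = ev (sv i) (tv i) (X1 + X2 * (1 / 2) + X3 * (1 / 2))
    simp only [ev_add, hm, hp4, P, Matrix.of_apply]
    simp
    ring
  · change _ = ev (sv i) (tv i) (X2 * (1 / 2) + X3 * ((ph - 1) / 2))
    simp only [ev_add, hm, hp4, hp3, P, Matrix.of_apply]
    simp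
    ring
  · change _ = ev (sv i) (tv i) (X2 * (1 / 2) + X3 * (ph / 2))
    simp only [ev_add, hm, hp4, hp2, P, Matrix.of_apply]
    simp
    ring

theorem t_GR : S_GR := by
  intro c hc
  have hpos : ∀ i, 0 < ev (sv i) (tv i) c := fun i => hc _ _ (sv_sq i) (tv_sq i)
  have hn : (0 : ℝ) < (nm c : ℝ) := by
    rw [← prod_ev]
    exact Finset.prod_pos fun i _ => hpos i
  refine ⟨by exact_mod_cast hn, ?_⟩
  let D : Matrix (Fin 4 × Fin 4) (Fin 4 × Fin 4) ℝ :=
    Matrix.diagonal fun p => 2 * de p.2 / ev (sv p.2) (tv p.2) c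
  have hA : IsUnit A := by
    rw [Matrix.isUnit_iff_isUnit_det, isUnit_iff_ne_zero]
    intro h
    have := det_A
    rw [h] at this
    norm_num at this
  refine ⟨Aᴴ * D * A, ?_, ?_, ?_⟩
  · apply Matrix.PosDef.conjTranspose_mul_mul_same
    · apply Matrix.PosDef.diagonal
      intro p
      have h1 := hpos p.2
      have h2 := de_pos p.2
      positivity
    · exact Matrix.mulVec_injective_of_isUnit hA
  · have h1 : (Aᴴ).det = A.det := by
      rw [Matrix.conjTranspose_eq_transpose_of_trivial, Matrix.det_transpose]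
    have h2 : D.det = (1 / 100 / (nm c : ℝ)) ^ 4 := by
      rw [Matrix.det_diagonal, Fintype.prod_prod_type]
      simp only [Finset.prod_div_distrib, prod_de, prod_ev, Finset.prod_const]
      simp only [Finset.card_univ, Fintype.card_fin]
      ring
    rw [Matrix.det_mul, Matrix.det_mul, h1, h2]
    have h3 := det_A
    calc _ = A.det ^ 2 * (1 / 100 / (nm c : ℝ)) ^ 4 * (nm c : ℝ) ^ 4 := by ring
      _ = 1 := by
        rw [h3]
        field_simp
        norm_num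
  · intro w
    have h1 : ∑ i, ∑ j, (Aᴴ * D * A) i j * (w i : ℝ) * (w j : ℝ) =
        ∑ p, 2 * de p.2 / ev (sv p.2) (tv p.2) c * ((A *ᵥ (fun j => (w j : ℝ))) p) ^ 2 := by
      have h2 : ∑ i, ∑ j, (Aᴴ * D * A) i j * (w i : ℝ) * (w j : ℝ) =
          (fun j => (w j : ℝ)) ⬝ᵥ ((Aᴴ * D * A) *ᵥ (fun j => (w j : ℝ))) := by
        simp only [dotProduct, mulVec, Finset.mul_sum]
        refine Finset.sum_congr rfl fun i _ => Finset.sum_congr rfl fun j _ => ?_
        ring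
      rw [h2, Matrix.conjTranspose_eq_transpose_of_trivial, ← Matrix.mulVec_mulVec, ← Matrix.mulVec_mulVec,
        Matrix.dotProduct_mulVec, Matrix.vecMul_transpose]
      simp only [dotProduct, D, Matrix.mulVec_diagonal]
      refine Finset.sum_congr rfl fun p _ => ?_
      ring
    rw [h1, lam_eq, Fintype.sum_prod_type_right, Finset.mul_sum]
    refine Finset.sum_congr rfl fun i _ => ?_
    have h3 := hpos i
    rw [ev_div (sv_sq i) (tv_sq i) _ _ h3.ne', Quaternion.normSq_def']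
    simp only [A_mulVec, Fin.sum_univ_four, Matrix.cons_val_zero, Matrix.cons_val_one, Matrix.cons_val,
      ev_add, sq, ev_mul (sv_sq i) (tv_sq i)]
    ring

end Pool.Agent.U373.TU.GR

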